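import Pool.Agent.H525.EX.Stm4
import Pool.Agent.H525.FF.Count

set_option autoImplicit false

/-!
Project EX (helper525), NEC: Gauss's formula for the number of irreducible polynomials, by helper261
(from `Pool.Agent.H525.FF.sum_NI`).
-/

namespace Pool.Agent.H261.EX

open Polynomial

theorem irr_eq (K : Type) [Field K] [Fintype K] (r : ℕ) :
    Pool.Agent.H525.EX.irr K r = Pool.Agent.H525.FF.NI K r := by
  classical
  unfold Pool.Agent.H525.EX.irr Pool.Agent.H525.FF.NI
  apply le_antisymm
  · apply Finset.card_le_card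
    intro P hP
    rw [Finset.mem_filter, Pool.Agent.H525.QF.mem_mon] at hP
    exact Pool.Agent.H525.FF.mem_Ir.2 ⟨hP.1.1, hP.2, hP.1.2⟩
  · apply Finset.card_le_card
    intro P hP
    have h := Pool.Agent.H525.FF.mem_Ir.1 hP
    rw [Finset.mem_filter, Pool.Agent.H525.QF.mem_mon]
    exact ⟨⟨h.1, h.2.2⟩, h.2.1⟩

theorem t_nec : Pool.Agent.H525.EX.S_nec := by
  intro K _ _ c hc
  rw [← Pool.Agent.H525.FF.sum_NI (F := K) c hc]
  exact Finset.sum_congr rfl (fun r _ => by rw [irr_eq])

end Pool.Agent.H261.EX
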